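import Mathlib

set_option autoImplicit false

open MeasureTheory AddCircle

namespace Pool.Agent.MP_0811ac_an

/-- `L∞` of the circle with normalised Haar measure. -/
abbrev Linf : Type := Lp ℂ ⊤ (haarAddCircle : Measure UnitAddCircle)

/-- The (almost everywhere defined) function on the circle given by `g`. -/
noncomputable def fn (g : Linf) : UnitAddCircle → ℂ := g

/-- The `n`-th Fourier coefficient of `g`. -/
noncomputable def coeff (g : Linf) (n : ℤ) : ℂ := fourierCoeff (fn g) n

/-- The `n`-th Fourier coefficient of the product `f g`. -/
noncomputable def coeffMul (f g : Linf) (n : ℤ) : ℂ :=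
  fourierCoeff (fun t => fn f t * fn g t) n

/-- The Hardy space of bounded functions, through boundary values: the subspace of `L∞` of the
classes whose negative Fourier coefficients vanish. -/
noncomputable def Hinf : Submodule ℂ Linf where
  carrier := {g | ∀ n : ℤ, n < 0 → coeff g n = 0}
  add_mem' := fun {a b} ha hb n hn => by
    have h1 := ha n hn
    have h2 := hb n hn
    unfold coeff fn at *
    rw [fourierCoeff_congr_ae (Lp.coeFn_add a b),
      fourierCoeff.add ((Lp.memLp a).integrable le_top) ((Lp.memLp b).integrable le_top),
      Pi.add_apply, h1, h2, add_zero]
  zero_mem' := fun n _ => by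
    unfold coeff fn
    rw [fourierCoeff_congr_ae (Lp.coeFn_zero ℂ ⊤ _)]
    simp [fourierCoeff]
  smul_mem' := fun c a ha n hn => by
    have h1 := ha n hn
    unfold coeff fn at *
    rw [fourierCoeff_congr_ae (Lp.coeFn_smul c a), fourierCoeff.const_smul, h1, smul_zero]

/-- The Hardy space as a type. -/
def HS : Type := Hinf

/-- The normed group structure of the Hardy space: that of a subspace of `L∞`. -/
noncomputable instance instGroup : NormedAddCommGroup HS := Submodule.normedAddCommGroup Hinf

/-- The complex normed space structure of the Hardy space: that of a subspace of `L∞`. -/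
noncomputable instance instSpace : NormedSpace ℂ HS where
  toModule := Submodule.module Hinf
  norm_smul_le := fun c g => norm_smul_le c g.1

/-- An element of the Hardy space as an element of `L∞`. -/
def HS.val (g : HS) : Linf := g.1

end Pool.Agent.MP_0811ac_an
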